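import Mathlib

/-! Matrices over a ring in which divisors of a scalar matrix split into unit pivots and a block
that is the scalar times an invertible matrix. -/

set_option autoImplicit false

namespace Pool.Agent.P.MP_d5661c_co.Flo

open Matrix

theorem gen {R : Type*} [CommRing R] (c : R)
    (H : ∀ (k : ℕ) (N N' : Matrix (Fin k) (Fin k) R), (∀ i j, ¬ IsUnit (N i j)) →
      N * N' = c • (1 : Matrix (Fin k) (Fin k) R) → IsUnit N'.det) :
    ∀ (k : ℕ) (M M' : Matrix (Fin k) (Fin k) R), M * M' = c • (1 : Matrix (Fin k) (Fin k) R) →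
      ∃ (a : ℕ) (u : R), IsUnit u ∧ M.det = c ^ a * u := by
  intro k
  induction k with
  | zero => intro M M' _; exact ⟨0, 1, isUnit_one, by simp⟩
  | succ k ih =>
    intro M M' hM
    by_cases hu : ∃ i j, IsUnit (M i j)
    · obtain ⟨i, j, hij⟩ := hu
      let e : Fin (k + 1) → (Fin (k + 1) ≃ Fin k ⊕ PUnit.{1}) := fun a =>
        (finSuccEquiv' a).trans (Equiv.optionEquivSumPUnit.{0} (Fin k))
      have he : ∀ a, (e a).symm (Sum.inr PUnit.unit) = a := by
        intro a
        rw [Equiv.symm_apply_eq]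
        simp [e]
      set N := Matrix.reindex (e i) (e j) M with hN
      set N' := Matrix.reindex (e j) (e i) M' with hN'
      have hNN : N * N' = c • (1 : Matrix (Fin k ⊕ PUnit.{1}) (Fin k ⊕ PUnit.{1}) R) := by
        rw [hN, hN', reindex_apply, reindex_apply, submatrix_mul_equiv, hM]
        ext a b
        simp [Matrix.one_apply]
      have hD : IsUnit (N.toBlocks₂₂).det := by
        rw [det_unique]
        have : N.toBlocks₂₂ default default = M i j := by
          simp only [hN, toBlocks₂₂, reindex_apply, submatrix_apply, of_apply]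
          rw [show (default : PUnit.{1}) = PUnit.unit from rfl, he, he]
        rwa [this]
      obtain ⟨inv⟩ := (Matrix.isUnit_iff_isUnit_det _).2 hD |>.nonempty_invertible
      have hb := hNN
      rw [← fromBlocks_toBlocks N, ← fromBlocks_toBlocks N', fromBlocks_multiply,
        ← fromBlocks_one, fromBlocks_smul, fromBlocks_inj] at hb
      obtain ⟨h11, -, h21, -⟩ := hb
      have hS : (N.toBlocks₁₁ - N.toBlocks₁₂ * ⅟N.toBlocks₂₂ * N.toBlocks₂₁) * N'.toBlocks₁₁ =
          c • (1 : Matrix (Fin k) (Fin k) R) := by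
        have h : N.toBlocks₂₁ * N'.toBlocks₁₁ = -(N.toBlocks₂₂ * N'.toBlocks₂₁) := by
          rw [smul_zero] at h21
          exact eq_neg_of_add_eq_zero_left h21
        rw [Matrix.sub_mul, Matrix.mul_assoc, h, Matrix.mul_neg, Matrix.mul_assoc,
          Matrix.invOf_mul_cancel_left, sub_neg_eq_add, h11]
      obtain ⟨a, u, hu, hd⟩ := ih _ _ hS
      have h1 : N.det = N.toBlocks₂₂.det * (c ^ a * u) := by
        rw [← hd, ← det_fromBlocks₂₂, fromBlocks_toBlocks]
      have h2 := det_reindex (e i) (e j) M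
      rw [← hN, h1] at h2
      set s : ℤˣ := Equiv.Perm.sign ((e j).trans (e i).symm)
      have hs : ((s : ℤ) : R) * ((s : ℤ) : R) = 1 := by
        rw [← Int.cast_mul, ← Units.val_mul, Int.units_mul_self, Units.val_one, Int.cast_one]
      refine ⟨a, ((s : ℤ) : R) * (N.toBlocks₂₂.det * u), (IsUnit.of_mul_eq_one _ hs).mul (hD.mul hu), ?_⟩
      have h3 : M.det = ((s : ℤ) : R) * (((s : ℤ) : R) * M.det) := by rw [← mul_assoc, hs, one_mul]
      rw [h3, ← h2]
      ring
    · push Not at hu
      obtain ⟨u, hu'⟩ := H _ M M' hu hM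
      have h := congrArg det hM
      rw [det_mul, det_smul, det_one, mul_one, ← hu'] at h
      refine ⟨Fintype.card (Fin (k + 1)), ((u⁻¹ : Rˣ) : R), Units.isUnit _, ?_⟩
      rw [← h, mul_assoc, Units.mul_inv, mul_one]

end Pool.Agent.P.MP_d5661c_co.Flo
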