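import Mathlib
import Pool.Agent.P.MP_d5661c_co.Flo.Gen

/-! Determinants of character values of a generalized Hadamard matrix: the congruence at a prime
that divides the order exactly once. -/

set_option autoImplicit false

namespace Pool.Agent.P.MP_d5661c_co.Flo

open Matrix Finset

/-- differences of distinct rows run through all residues -/
def GH (n : ℕ) (h : Fin n → Fin n → ℕ) : Prop :=
  ∀ i i', i ≠ i' → Function.Bijective fun j => ((h i j : ZMod n) - (h i' j : ZMod n))

/-- the determinant of the matrix of powers -/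
noncomputable def dd {R : Type*} [CommRing R] {n : ℕ} (h : Fin n → Fin n → ℕ) (x : R) : R :=
  (Matrix.of fun i j => x ^ h i j).det

theorem map_dd {R S : Type*} [CommRing R] [CommRing S] (φ : R →+* S) {n : ℕ}
    (h : Fin n → Fin n → ℕ) (x : R) : φ (dd h x) = dd h (φ x) := by
  unfold dd
  rw [RingHom.map_det]
  congr 1
  ext i j
  simp

theorem orth {K : Type*} [Field K] {n : ℕ} [NeZero n] {h : Fin n → Fin n → ℕ} (hG : GH n h)
    {x : K} (hx : x ^ n = 1) (h1 : x ≠ 1) (i i' : Fin n) :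
    ∑ j, x ^ h i j * x⁻¹ ^ h i' j = if i = i' then (n : K) else 0 := by
  have h0 : x ≠ 0 := fun e => by
    rw [e, zero_pow (NeZero.ne n)] at hx
    exact zero_ne_one hx
  split_ifs with e
  · subst e
    simp [mul_inv_cancel₀ (pow_ne_zero _ h0)]
  · have hψ : AddChar.zmodChar n hx ≠ 1 := fun e' => by
      have := AddChar.zmodChar_apply' hx 1
      rw [e', AddChar.one_apply, pow_one] at this
      exact h1 this.symm
    rw [← AddChar.sum_eq_zero_of_ne_one hψ, ← (hG i i' e).sum_comp]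
    refine sum_congr rfl fun j _ => ?_
    rw [AddChar.map_sub_eq_div, AddChar.zmodChar_apply', AddChar.zmodChar_apply', inv_pow,
      div_eq_mul_inv]

theorem dd_mul {K : Type*} [Field K] {n : ℕ} [NeZero n] {h : Fin n → Fin n → ℕ} (hG : GH n h)
    {x : K} (hx : x ^ n = 1) (h1 : x ≠ 1) : dd h x * dd h x⁻¹ = (n : K) ^ n := by
  unfold dd
  rw [← det_transpose (Matrix.of fun i j => x⁻¹ ^ h i j), ← det_mul]
  have : (Matrix.of fun i j => x ^ h i j) * (Matrix.of fun i j => x⁻¹ ^ h i j)ᵀ =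
      (n : K) • (1 : Matrix (Fin n) (Fin n) K) := by
    ext i i'
    simp only [mul_apply, of_apply, transpose_apply, orth hG hx h1, Matrix.smul_apply, one_apply,
      smul_eq_mul, mul_ite, mul_one, mul_zero]
  rw [this, det_smul, det_one, mul_one, Fintype.card_fin]

theorem cop_one {K : Type*} [CommMonoid K] {a b : K} {r m : ℕ} (ha : a ^ r = 1) (hb : b ^ m = 1)
    (hc : Nat.Coprime r m) (h : a * b = 1) : a = 1 := by
  have h1 : a ^ m = 1 := by
    have := congrArg (· ^ m) h
    simpa [mul_pow, hb] using this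
  have := pow_gcd_eq_one.2 ⟨ha, h1⟩
  rwa [hc, pow_one] at this

section Val

variable {K : Type*} [Field K] {Γ : Type*} [LinearOrderedCommGroupWithZero Γ] (v : Valuation K Γ)

theorem v_nat (a : ℕ) : v (a : K) ≤ 1 := by
  induction a with
  | zero => simp
  | succ a ih => rw [Nat.cast_succ]; exact v.map_add_le ih (by simp)

theorem v_int (a : ℤ) : v (a : K) ≤ 1 := by
  obtain ⟨b, rfl | rfl⟩ := a.eq_nat_or_neg
  · simpa using v_nat v b
  · simpa using v_nat v b

theorem v_root {x : K} {m : ℕ} (hm : m ≠ 0) (hx : x ^ m = 1) : v x = 1 := by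
  have := congrArg v hx
  rwa [map_pow, map_one, pow_eq_one_iff_of_nonneg zero_le hm] at this

theorem v_cop {q : ℕ} (hq : v (q : K) < 1) {a : ℤ} (h : IsCoprime a (q : ℤ)) : v (a : K) = 1 := by
  refine le_antisymm (v_int v a) (not_lt.1 fun ha => ?_)
  obtain ⟨x, y, e⟩ := h
  have e' : (x : K) * a + y * q = 1 := by exact_mod_cast congrArg (Int.cast : ℤ → K) e
  have h1 : v ((x : K) * a) < 1 := by
    rw [map_mul]; exact mul_lt_one_of_nonneg_of_lt_one_right (v_int v x) zero_le ha
  have h2 : v ((y : K) * q) < 1 := by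
    rw [map_mul]; exact mul_lt_one_of_nonneg_of_lt_one_right (v_int v y) zero_le hq
  have := v.map_add_lt h1 h2
  rw [e', map_one] at this
  exact lt_irrefl _ this

theorem v_det {k : ℕ} (N : Matrix (Fin k) (Fin k) K) (h : ∀ i j, v (N i j) ≤ 1) :
    v N.det ≤ 1 := by
  rw [det_apply']
  refine v.map_sum_le fun σ _ => ?_
  rw [map_mul, map_prod]
  exact mul_le_one' (v_int v _) (prod_le_one' fun i _ => h _ _)

/-- congruent to one -/
def One (x : K) : Prop := v (x - 1) < 1

variable {v}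

theorem One.val {x : K} (h : One v x) : v x = 1 := by
  have := v.map_one_add_of_lt h
  rwa [add_sub_cancel] at this

theorem One.one : One v (1 : K) := by simp [One]

theorem One.mul {x y : K} (hx : One v x) (hy : One v y) : One v (x * y) := by
  have e : x * y - 1 = x * (y - 1) + (x - 1) := by ring
  unfold One
  rw [e]
  refine v.map_add_lt ?_ hx
  rw [map_mul, hx.val, one_mul]
  exact hy

theorem One.div {x y : K} (hy : v y = 1) (h : v (x - y) < 1) : One v (x / y) := by
  have h0 : y ≠ 0 := fun e => by simp [e] at hy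
  unfold One
  rw [div_sub_one h0, map_div₀, hy, div_one]
  exact h

theorem One.inv {x : K} (hx : One v x) : One v x⁻¹ := by
  rw [← one_div]
  exact One.div hx.val (by rw [Valuation.map_sub_swap]; exact hx)

theorem One.pow {x : K} (hx : One v x) (k : ℕ) : One v (x ^ k) := by
  induction k with
  | zero => simpa using One.one
  | succ k ih => rw [pow_succ]; exact ih.mul hx

theorem One.zpow {x : K} (hx : One v x) (k : ℤ) : One v (x ^ k) := by
  obtain ⟨b, rfl | rfl⟩ := k.eq_nat_or_neg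
  · simpa using hx.pow b
  · simpa using (hx.pow b).inv

theorem One.prod {ι : Type*} (s : Finset ι) (f : ι → K) (h : ∀ i ∈ s, One v (f i)) :
    One v (∏ i ∈ s, f i) :=
  Finset.prod_induction f (One v) (fun _ _ => One.mul) One.one h

theorem v_sub_one {q : ℕ} (hp : q.Prime) (hq : v (q : K) < 1) {x : K} (hx : x ^ q = 1) :
    v (x - 1) < 1 := by
  have h1 : v x = 1 := v_root v hp.ne_zero hx
  by_contra hc
  have h2 : v (x - 1) = 1 := le_antisymm (v.map_sub_le h1.le (by simp)) (not_lt.1 hc)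
  let S : Subring K := v.integer
  have hxS : x - 1 ∈ S := h2.le
  obtain ⟨r, hr⟩ := exists_add_pow_prime_eq hp (⟨x - 1, hxS⟩ : S) 1
  have hr' : (x - 1 + 1) ^ q = (x - 1) ^ q + 1 ^ q + q * (x - 1) * 1 * (r : K) := by
    simpa using congrArg S.subtype hr
  rw [sub_add_cancel, hx, one_pow] at hr'
  have e : (x - 1) ^ q = -(q * (x - 1) * (r : K)) := by linear_combination -hr'
  have := congrArg v e
  rw [map_pow, h2, one_pow, Valuation.map_neg, map_mul, map_mul, h2, mul_one] at this
  exact absurd this (mul_lt_one_of_nonneg_of_lt_one_left zero_le hq r.2).ne'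

end Val

theorem frob {K : Type*} [Field K] {q f : ℕ} (hp : q.Prime) (ho : Odd q) {ξ : K}
    (hξ : ξ ^ q ^ f = ξ) {y : K} (hy : y ∈ Subring.closure ({ξ} : Set K)) :
    ∃ z ∈ Subring.closure ({ξ} : Set K), y ^ q ^ f = y + q * z := by
  induction hy using Subring.closure_induction with
  | mem x hx => exact ⟨0, zero_mem _, by rw [Set.mem_singleton_iff.1 hx, hξ]; simp⟩
  | zero => exact ⟨0, zero_mem _, by simp [hp.ne_zero]⟩
  | one => exact ⟨0, zero_mem _, by simp⟩
  | add a b ha hb iha ihb =>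
    obtain ⟨z, hz, e⟩ := iha
    obtain ⟨z', hz', e'⟩ := ihb
    obtain ⟨r, hr⟩ := exists_add_pow_prime_pow_eq hp
      (⟨a, ha⟩ : Subring.closure ({ξ} : Set K)) ⟨b, hb⟩ f
    have hr' : (a + b) ^ q ^ f = a ^ q ^ f + b ^ q ^ f + q * a * b * (r : K) := by
      simpa using congrArg (Subring.closure ({ξ} : Set K)).subtype hr
    exact ⟨z + z' + a * b * r, add_mem (add_mem hz hz') (mul_mem (mul_mem ha hb) r.2), by
      rw [hr', e, e']; ring⟩
  | neg a ha iha =>
    obtain ⟨z, hz, e⟩ := iha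
    exact ⟨-z, neg_mem hz, by rw [ho.pow.neg_pow, e]; ring⟩
  | mul a b ha hb iha ihb =>
    obtain ⟨z, hz, e⟩ := iha
    obtain ⟨z', hz', e'⟩ := ihb
    exact ⟨a * z' + z * b + q * z * z', add_mem (add_mem (mul_mem ha hz') (mul_mem hz hb))
      (mul_mem (mul_mem (natCast_mem _ q) hz) hz'), by rw [mul_pow, e, e']; ring⟩

section LemA

variable {K : Type*} [Field K] {Γ : Type*} [LinearOrderedCommGroupWithZero Γ] (v : Valuation K Γ)

/-- the localisation of a subring at the valuation -/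
def loc (S : Subring K) : Subring K where
  carrier := {x | ∃ b ∈ S, v b = 1 ∧ x * b ∈ S}
  one_mem' := ⟨1, one_mem _, by simp, by simp⟩
  zero_mem' := ⟨1, one_mem _, by simp, by simp⟩
  mul_mem' := by
    rintro x y ⟨b, hb, h1, h2⟩ ⟨b', hb', h1', h2'⟩
    refine ⟨b * b', mul_mem hb hb', by simp [h1, h1'], ?_⟩
    rw [mul_mul_mul_comm]
    exact mul_mem h2 h2'
  add_mem' := by
    rintro x y ⟨b, hb, h1, h2⟩ ⟨b', hb', h1', h2'⟩
    refine ⟨b * b', mul_mem hb hb', by simp [h1, h1'], ?_⟩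
    have e : (x + y) * (b * b') = x * b * b' + y * b' * b := by ring
    rw [e]
    exact add_mem (mul_mem h2 hb') (mul_mem h2' hb)
  neg_mem' := by
    rintro x ⟨b, hb, h1, h2⟩
    exact ⟨b, hb, h1, by rw [neg_mul]; exact neg_mem h2⟩

theorem loc_le {S : Subring K} (hS : ∀ x ∈ S, v x ≤ 1) {x : K} (hx : x ∈ loc v S) : v x ≤ 1 := by
  obtain ⟨b, -, h1, h2⟩ := hx
  have := hS _ h2
  rwa [map_mul, h1, mul_one] at this

theorem loc_inv {S : Subring K} {x : K} (hx : x ∈ loc v S) (h : v x = 1) : x⁻¹ ∈ loc v S := by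
  obtain ⟨b, hb, h1, h2⟩ := hx
  have h0 : x ≠ 0 := fun e => by simp [e] at h
  exact ⟨x * b, h2, by simp [h, h1], by rwa [inv_mul_cancel_left₀ h0]⟩

/-- congruent pairs whose first entry lies in the given subring -/
def pairs (O : Subring K) (hO : ∀ x ∈ O, v x ≤ 1) : Subring (K × K) where
  carrier := {r | r.1 ∈ O ∧ v (r.2 - r.1) < 1}
  one_mem' := ⟨one_mem _, by simp⟩
  zero_mem' := ⟨zero_mem _, by simp⟩
  mul_mem' := by
    rintro r s ⟨h1, h2⟩ ⟨h1', h2'⟩
    refine ⟨mul_mem h1 h1', ?_⟩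
    have e : (r * s).2 - (r * s).1 = (r.2 - r.1) * (s.2 - s.1) + (r.1 * (s.2 - s.1) +
        s.1 * (r.2 - r.1)) := by
      simp only [Prod.fst_mul, Prod.snd_mul]; ring
    rw [e]
    refine v.map_add_lt ?_ (v.map_add_lt ?_ ?_) <;> rw [map_mul]
    · exact mul_lt_one_of_nonneg_of_lt_one_right h2.le zero_le h2'
    · exact mul_lt_one_of_nonneg_of_lt_one_right (hO _ h1) zero_le h2'
    · exact mul_lt_one_of_nonneg_of_lt_one_right (hO _ h1') zero_le h2
  add_mem' := by
    rintro r s ⟨h1, h2⟩ ⟨h1', h2'⟩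
    refine ⟨add_mem h1 h1', ?_⟩
    have e : (r + s).2 - (r + s).1 = (r.2 - r.1) + (s.2 - s.1) := by
      simp only [Prod.fst_add, Prod.snd_add]; ring
    rw [e]
    exact v.map_add_lt h2 h2'
  neg_mem' := by
    rintro r ⟨h1, h2⟩
    refine ⟨neg_mem h1, ?_⟩
    have e : (-r).2 - (-r).1 = -(r.2 - r.1) := by
      simp only [Prod.fst_neg, Prod.snd_neg]; ring
    rwa [e, Valuation.map_neg]

theorem lemA [CharZero K] {n : ℕ} [NeZero n] {h : Fin n → Fin n → ℕ} (hG : GH n h) {q m : ℕ}
    (hp : q.Prime) (ho : Odd q) (hn : n = q * m) (hc : Nat.Coprime q m) (hq : v (q : K) < 1)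
    {ξ lam : K} (hξ : ξ ^ m = 1) (h1 : ξ ≠ 1) (hl : lam ^ q = 1) :
    One v (dd h (ξ * lam) / dd h ξ) := by
  have hm : m ≠ 0 := fun e => NeZero.ne n (by rw [hn, e, mul_zero])
  have hq0 : (q : K) ≠ 0 := Nat.cast_ne_zero.2 hp.ne_zero
  have hn0 : (n : K) ≠ 0 := Nat.cast_ne_zero.2 (NeZero.ne n)
  have hvm : v (m : K) = 1 := by
    have := v_cop v hq (a := (m : ℤ)) (Nat.isCoprime_iff_coprime.2 hc.symm)
    simpa using this
  set S := Subring.closure ({ξ} : Set K) with hS
  have hSv : ∀ x ∈ S, v x ≤ 1 := fun x hx =>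
    (Subring.closure_le (t := v.integer)).2
      (Set.singleton_subset_iff.2 (v_root v hm hξ).le) hx
  have hO : ∀ x ∈ loc v S, v x ≤ 1 := fun x hx => loc_le v hSv hx
  -- division by `q`
  have hdiv : ∀ x ∈ loc v S, v x < 1 → v (x / q) ≤ 1 := by
    rintro x ⟨b, -, hb1, hb2⟩ hx
    have hf : ξ ^ q ^ m.totient = ξ := by
      have e := pow_eq_pow_of_modEq (Nat.ModEq.pow_totient hc) hξ
      rwa [pow_one] at e
    obtain ⟨z, hz, e⟩ := frob hp ho hf hb2
    obtain ⟨Q, hQ⟩ : ∃ Q, q ^ m.totient = Q + 1 + 1 :=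
      ⟨q ^ m.totient - 2, by
        have := Nat.one_lt_pow (Nat.totient_pos.2 (Nat.pos_of_ne_zero hm)).ne' hp.one_lt
        omega⟩
    have hy : v (x * b) < 1 := by rwa [map_mul, hb1, mul_one]
    have h3 : v (1 - (x * b) ^ (Q + 1)) = 1 :=
      v.map_one_sub_of_lt (by rw [map_pow]; exact pow_lt_one₀ zero_le hy Q.succ_ne_zero)
    have e' : x / q * b * (1 - (x * b) ^ (Q + 1)) = -z := by
      rw [hQ] at e
      field_simp
      linear_combination -e
    have := congrArg v e'
    rw [map_mul, map_mul, hb1, h3, mul_one, mul_one, Valuation.map_neg] at this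
    rw [this]
    exact hSv z hz
  let R := pairs v (loc v S) hO
  let f1 : R →+* K := (RingHom.fst K K).comp R.subtype
  let f2 : R →+* K := (RingHom.snd K K).comp R.subtype
  have hunit : ∀ r : R, v (f1 r) = 1 → IsUnit r := by
    intro r hr
    have a1 : v r.1.1 = 1 := hr
    have a3 : One v (r.1.2 / r.1.1) := One.div a1 r.2.2
    have a2 : v r.1.2 = 1 := by
      have := a3.val
      rwa [map_div₀, a1, div_one] at this
    have b1 : r.1.1 ≠ 0 := fun e => by simp [e] at a1
    have b2 : r.1.2 ≠ 0 := fun e => by simp [e] at a2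
    refine IsUnit.of_mul_eq_one (⟨(r.1.1⁻¹, r.1.2⁻¹), loc_inv v r.2.1 a1, ?_⟩ : R) ?_
    · show v (r.1.2⁻¹ - r.1.1⁻¹) < 1
      rw [inv_sub_inv b2 b1, map_div₀, map_mul, a1, a2, mul_one, div_one, Valuation.map_sub_swap]
      exact r.2.2
    · exact Subtype.ext (Prod.ext (mul_inv_cancel₀ b1) (mul_inv_cancel₀ b2))
  have hf1 : ∀ r : R, v (f1 r) ≤ 1 := fun r => hO _ r.2.1
  have key := gen (R := R) (n : R) (by
    intro k N N' hN hNN
    refine hunit _ (le_antisymm (hf1 _) (not_lt.1 fun hlt => ?_))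
    have e := congrArg (fun A => (f1.mapMatrix A).det) hNN
    have e1 : f1.mapMatrix N = (q : K) • (Matrix.of fun i j => f1 (N i j) / q) := by
      ext i j
      simp only [RingHom.mapMatrix_apply, map_apply, Matrix.smul_apply, of_apply, smul_eq_mul]
      field_simp
    simp only [map_mul, det_mul] at e
    rw [e1, det_smul, ← RingHom.map_det, ← RingHom.map_det, det_smul, det_one, mul_one, map_pow,
      map_natCast, hn, Nat.cast_mul, mul_pow, mul_assoc] at e
    have e2 := congrArg v (mul_left_cancel₀ (pow_ne_zero _ hq0) e)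
    rw [map_mul, map_pow, hvm, one_pow] at e2
    refine absurd e2 (mul_lt_one_of_nonneg_of_lt_one_right (v_det v _ fun i j => ?_) zero_le
      hlt).ne
    exact hdiv _ (N i j).2.1 (lt_of_le_of_ne (hf1 _) fun e3 => hN i j (hunit _ e3)))
  have hξn : ξ ^ n = 1 := by rw [hn, mul_comm, pow_mul, hξ, one_pow]
  have hln : (ξ * lam) ^ n = 1 := by rw [mul_pow, hξn, hn, pow_mul, hl, one_pow, one_mul]
  have hl1 : ξ * lam ≠ 1 := fun e => h1 (cop_one hξ hl hc.symm e)
  let g : R := ⟨(ξ, ξ * lam), ⟨1, one_mem _, by simp, by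
      simpa using Subring.subset_closure (Set.mem_singleton ξ)⟩, by
    show v (ξ * lam - ξ) < 1
    rw [← mul_sub_one, map_mul, v_root v hm hξ, one_mul]
    exact v_sub_one hp hq hl⟩
  have hg : ∀ x : K, x ^ n = 1 → x ^ (n - 1) = x⁻¹ := fun x hx =>
    eq_inv_of_mul_eq_one_left (by
      rw [← pow_succ, Nat.sub_add_cancel (Nat.pos_of_ne_zero (NeZero.ne n)), hx])
  have hext : ∀ r s : R, f1 r = f1 s → f2 r = f2 s → r = s := fun r s a b =>
    Subtype.ext (Prod.ext a b)
  obtain ⟨a, u, hu, hd⟩ := key n (Matrix.of fun i j => g ^ h i j)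
    (Matrix.of fun j i => (g ^ (n - 1)) ^ h i j) (by
      refine Matrix.ext fun i i' => hext _ _ ?_ ?_
      · simp only [mul_apply, of_apply, map_sum, map_mul, map_pow, Matrix.smul_apply, one_apply,
          smul_eq_mul, mul_ite, mul_one, mul_zero, apply_ite f1, map_natCast, map_zero]
        rw [show f1 g = ξ from rfl, hg ξ hξn, orth hG hξn h1]
      · simp only [mul_apply, of_apply, map_sum, map_mul, map_pow, Matrix.smul_apply, one_apply,
          smul_eq_mul, mul_ite, mul_one, mul_zero, apply_ite f2, map_natCast, map_zero]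
        rw [show f2 g = ξ * lam from rfl, hg _ hln, orth hG hln hl1])
  have d1 : dd h ξ = (n : K) ^ a * f1 u := by
    rw [show ξ = f1 g from rfl, ← map_dd, dd, hd, map_mul, map_pow, map_natCast]
  have d2 : dd h (ξ * lam) = (n : K) ^ a * f2 u := by
    rw [show ξ * lam = f2 g from rfl, ← map_dd, dd, hd, map_mul, map_pow, map_natCast]
  rw [d1, d2, mul_div_mul_left _ _ (pow_ne_zero _ hn0)]
  refine One.div ?_ u.2.2
  obtain ⟨u', hu'⟩ := hu.exists_right_inv
  have e := congrArg (fun r => v (f1 r)) hu'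
  simp only [map_mul, map_one] at e
  exact le_antisymm (hf1 u) (not_lt.1 fun hlt =>
    absurd e (mul_lt_one_of_nonneg_of_lt_one_left zero_le hlt (hf1 u')).ne)

end LemA

end Pool.Agent.P.MP_d5661c_co.Flo
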