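import Mathlib
import Pool.Agent.P.MP_d5661c_co.Flo.LemA

/-! The ratio of two conjugate determinants at the ramified prime. -/

set_option autoImplicit false

namespace Pool.Agent.P.MP_d5661c_co.Flo

open Finset Polynomial

variable {K : Type*} [Field K] {Γ : Type*} [LinearOrderedCommGroupWithZero Γ] (v : Valuation K Γ)

theorem v_aeval {y : K} (hy : v y ≤ 1) (f : ℤ[X]) : v (aeval y f) ≤ 1 := by
  induction f using Polynomial.induction_on' with
  | add f g hf hg => rw [map_add]; exact v.map_add_le hf hg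
  | monomial k a =>
    rw [aeval_monomial, map_mul, map_pow]
    exact mul_le_one' (by simpa using v_int v a) (pow_le_one₀ zero_le hy)

theorem aeval_sub (f : ℤ[X]) :
    ∃ s : ℤ[X], ∀ y : K, aeval y f = (y - 1) * aeval y s + ((f.eval 1 : ℤ) : K) := by
  obtain ⟨s, hs⟩ := X_sub_C_dvd_sub_C_eval (p := f) (a := 1)
  refine ⟨s, fun y => ?_⟩
  have := congrArg (aeval y) hs
  simp only [map_sub, map_mul, aeval_X, map_one, eq_intCast, map_intCast] at this
  linear_combination this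

theorem v_aeval_sub {y : K} (hy : v y ≤ 1) (h1 : v (y - 1) < 1) (f : ℤ[X]) :
    v (aeval y f - ((f.eval 1 : ℤ) : K)) < 1 := by
  obtain ⟨s, hs⟩ := aeval_sub (K := K) f
  rw [hs y, add_sub_cancel_right, map_mul]
  exact mul_lt_one_of_nonneg_of_lt_one_left zero_le h1 (v_aeval v hy s)

theorem decomp {p : ℕ} (hp : p.Prime) (hq : v (p : K) < 1) {z : K} (hz : z ^ p = 1) (h1 : z ≠ 1)
    (k : ℕ) : ∀ f : ℤ[X], v (z - 1) ^ k ≤ v (aeval z f) →
      ∃ (m : ℕ) (g : ℤ[X]), ¬ (p : ℤ) ∣ g.eval 1 ∧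
        ∀ y : K, y ^ p = 1 → y ≠ 1 → aeval y f = (y - 1) ^ m * aeval y g := by
  have hπ : v (z - 1) < 1 := v_sub_one hp hq hz
  have hπ0 : 0 < v (z - 1) := zero_lt_iff.2 (by simpa [sub_eq_zero] using h1)
  have hv : v z ≤ 1 := (v_root v hp.ne_zero hz).le
  obtain ⟨s, hs⟩ := aeval_sub (K := K) (∑ i ∈ range p, X ^ i)
  have step : ∀ f : ℤ[X], (p : ℤ) ∣ f.eval 1 → ∃ f1 : ℤ[X],
      ∀ y : K, y ^ p = 1 → y ≠ 1 → aeval y f = (y - 1) * aeval y f1 := by
    rintro f ⟨c, hc⟩
    obtain ⟨s1, hs1⟩ := aeval_sub (K := K) f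
    refine ⟨s1 - C c * s, fun y hy hy1 => ?_⟩
    have e := hs y
    simp only [map_sum, map_pow, aeval_X, eval_finsetSum, eval_pow, eval_X, one_pow, sum_const,
      card_range, nsmul_eq_mul, mul_one, Int.cast_natCast] at e
    rw [geom_sum_eq hy1, hy, sub_self, zero_div] at e
    rw [hs1 y, hc]
    simp only [map_sub, map_mul, eq_intCast, map_intCast, Int.cast_mul, Int.cast_natCast]
    linear_combination (-(c : K)) * e
  induction k with
  | zero =>
    intro f hf
    by_cases hd : (p : ℤ) ∣ f.eval 1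
    · obtain ⟨f1, e⟩ := step f hd
      rw [pow_zero, e z hz h1, map_mul] at hf
      exact absurd hf (not_le.2
        (mul_lt_one_of_nonneg_of_lt_one_left zero_le hπ (v_aeval v hv f1)))
    · exact ⟨0, f, hd, fun y _ _ => by simp⟩
  | succ k ih =>
    intro f hf
    by_cases hd : (p : ℤ) ∣ f.eval 1
    · obtain ⟨f1, e⟩ := step f hd
      rw [pow_succ', e z hz h1, map_mul] at hf
      obtain ⟨m, g, hg, e'⟩ := ih f1 (le_of_mul_le_mul_left hf hπ0)
      exact ⟨m + 1, g, hg, fun y hy hy1 => by rw [e y hy hy1, e' y hy hy1]; ring⟩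
    · exact ⟨0, f, hd, fun y _ _ => by simp⟩

theorem geom_one {p : ℕ} (hp : p.Prime) (hq : v (p : K) < 1) {z : K} (hz : z ^ p = 1) (h1 : z ≠ 1)
    {t : ℕ} (ht : ¬ p ∣ t) : One v ((z ^ t - 1) / (z - 1) / t) := by
  have hvt : v (t : K) = 1 := by
    have := v_cop v hq (a := (t : ℤ))
      (Nat.isCoprime_iff_coprime.2 ((Nat.Prime.coprime_iff_not_dvd hp).2 ht).symm)
    simpa using this
  refine One.div hvt ?_
  have := v_aeval_sub v (v_root v hp.ne_zero hz).le (v_sub_one hp hq hz) (∑ i ∈ range t, X ^ i)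
  simp only [map_sum, map_pow, aeval_X, eval_finsetSum, eval_pow, eval_X, one_pow, sum_const,
    card_range, nsmul_eq_mul, mul_one, Int.cast_natCast] at this
  rwa [geom_sum_eq h1] at this

theorem v_pow_sub {p : ℕ} (hp : p.Prime) (hq : v (p : K) < 1) {z : K} (hz : z ^ p = 1) (h1 : z ≠ 1)
    {t : ℕ} (ht : ¬ p ∣ t) : v (z ^ t - 1) = v (z - 1) := by
  have hvt : v (t : K) = 1 := by
    have := v_cop v hq (a := (t : ℤ))
      (Nat.isCoprime_iff_coprime.2 ((Nat.Prime.coprime_iff_not_dvd hp).2 ht).symm)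
    simpa using this
  have := (geom_one v hp hq hz h1 ht).val
  rwa [map_div₀, hvt, div_one, map_div₀, div_eq_one_iff_eq (by simpa [sub_eq_zero] using h1)]
    at this

theorem lemB {n : ℕ} [NeZero n] {h : Fin n → Fin n → ℕ} (hG : GH n h) (hno : Odd n) {p m t : ℕ}
    (hp : p.Prime) (hn : n = p * m) (hc : Nat.Coprime p m) (hq : v (p : K) < 1)
    {z : K} (hz : IsPrimitiveRoot z p) (ht : (p : ℤ) ∣ (t : ℤ) ^ (p / 2) + 1) :
    One v (-(dd h (z ^ t) / dd h z)) := by
  have hz1 : z ≠ 1 := hz.ne_one hp.one_lt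
  have hzp := hz.pow_eq_one
  have hz0 : z ≠ 0 := hz.ne_zero hp.ne_zero
  have hpo : Odd p := (Nat.odd_mul.1 (hn ▸ hno)).1
  have hp2 : 2 * (p / 2) + 1 = p := Nat.two_mul_div_two_add_one_of_odd hpo
  have hpt : ¬ p ∣ t := fun hd => by
    have h2 : (p : ℤ) ∣ (t : ℤ) ^ (p / 2) :=
      dvd_pow (Int.natCast_dvd_natCast.2 hd) (by have := hp.two_le; omega)
    have := (dvd_add_right h2).1 ht
    exact hp.one_lt.ne' (Nat.dvd_one.1 (by exact_mod_cast this))
  have hπ : v (z - 1) < 1 := v_sub_one hp hq hzp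
  have hπ0 : 0 < v (z - 1) := zero_lt_iff.2 (by simpa [sub_eq_zero] using hz1)
  have hvm : v (m : K) = 1 := by
    have := v_cop v hq (a := (m : ℤ)) (Nat.isCoprime_iff_coprime.2 hc.symm)
    simpa using this
  have hvp : v (p : K) = v (z - 1) ^ (p - 1) := by
    have e := IsPrimitiveRoot.prod_one_sub_pow_eq_order (n := p - 1) (μ := z)
      (by rwa [Nat.sub_add_cancel hp.pos])
    have e' : ((p - 1 : ℕ) : K) + 1 = p := by
      rw [← Nat.cast_succ, Nat.succ_eq_add_one, Nat.sub_add_cancel hp.pos]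
    rw [← e', ← e, map_prod, Finset.prod_congr rfl (g := fun _ => v (z - 1)), prod_const,
      card_range]
    intro k hk
    rw [Valuation.map_sub_swap]
    exact v_pow_sub v hp hq hzp hz1 (Nat.not_dvd_of_pos_of_lt k.succ_pos (by
      have := mem_range.1 hk; omega))
  have hzn : z ^ n = 1 := by rw [hn, pow_mul, hzp, one_pow]
  have hf : ∀ y : K, aeval y (dd h (X : ℤ[X])) = dd h y := fun y => by
    have := map_dd (aeval y : ℤ[X] →ₐ[ℤ] K).toRingHom h X
    simpa using this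
  have hinv : z⁻¹ = z ^ (p - 1) := (eq_inv_of_mul_eq_one_left (by
    rw [← pow_succ, Nat.sub_add_cancel hp.pos, hzp])).symm
  have hp1 : ¬ p ∣ p - 1 := Nat.not_dvd_of_pos_of_lt (by have := hp.two_le; omega)
    (by have := hp.pos; omega)
  have hmul := congrArg v (dd_mul hG hzn hz1)
  rw [map_mul, map_pow, show v (n : K) = v (z - 1) ^ (p - 1) by
    rw [hn, Nat.cast_mul, map_mul, hvm, mul_one, hvp], ← pow_mul, hinv] at hmul
  have hroot : ∀ a : ℕ, (z ^ a) ^ p = 1 := fun a => by rw [← pow_mul, mul_comm, pow_mul, hzp, one_pow]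
  have hne : ∀ a : ℕ, ¬ p ∣ a → z ^ a ≠ 1 := fun a ha e => ha ((hz.pow_eq_one_iff_dvd a).1 e)
  obtain ⟨μ, g, hg, e⟩ := decomp v hp hq hzp hz1 ((p - 1) * n) (dd h X) (by
    rw [← hmul, hf]
    refine mul_le_of_le_one_right' ?_
    rw [← hf]
    exact v_aeval v (v_root v hp.ne_zero (hroot _)).le _)
  have hg1 : v ((g.eval 1 : ℤ) : K) = 1 := v_cop v hq
    ((Nat.prime_iff_prime_int.1 hp).coprime_iff_not_dvd.2 hg).symm
  have hgy : ∀ y : K, y ^ p = 1 → One v (aeval y g / ((g.eval 1 : ℤ) : K)) := fun y hy =>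
    One.div hg1 (v_aeval_sub v (v_root v hp.ne_zero hy).le (v_sub_one hp hq hy) g)
  have hgv : ∀ y : K, y ^ p = 1 → v (aeval y g) = 1 := fun y hy => by
    have := (hgy y hy).val
    rwa [map_div₀, hg1, div_one] at this
  have hμ : μ = p / 2 * n := by
    rw [← hf, ← hf, e z hzp hz1, e _ (hroot _) (hne _ hp1), map_mul, map_mul, map_pow, map_pow,
      hgv z hzp, hgv _ (hroot _), v_pow_sub v hp hq hzp hz1 hp1, mul_one, ← pow_add] at hmul
    have := (pow_right_strictAnti₀ hπ0 hπ).injective hmul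
    have h2 : p - 1 = 2 * (p / 2) := by omega
    rw [h2] at this
    nlinarith
  have ht0 : (t : K) ≠ 0 := fun e0 => by
    have := (geom_one v hp hq hzp hz1 hpt).val
    simp [e0] at this
  have hg0 : ((g.eval 1 : ℤ) : K) ≠ 0 := fun e0 => by simp [e0] at hg1
  have hgz : aeval z g ≠ 0 := fun e0 => by
    have := hgv z hzp
    simp [e0] at this
  have hT : One v (-(t : K) ^ μ) := by
    have h2 : One v (-(t : K) ^ (p / 2)) := by
      obtain ⟨c, hc⟩ := ht
      have e1 : (t : K) ^ (p / 2) + 1 = p * c := by exact_mod_cast congrArg (Int.cast : ℤ → K) hc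
      unfold One
      rw [← neg_add', Valuation.map_neg, e1, map_mul]
      exact mul_lt_one_of_nonneg_of_lt_one_left zero_le hq (v_int v c)
    have := h2.pow n
    rwa [hno.neg_pow, ← pow_mul, ← hμ] at this
  have := (((geom_one v hp hq hzp hz1 hpt).pow μ).mul hT).mul
    ((hgy _ (hroot t)).mul (hgy z hzp).inv)
  convert this using 1
  rw [← hf, ← hf, e z hzp hz1, e _ (hroot _) (hne _ hpt), div_pow, div_pow]
  have : (z - 1) ^ μ ≠ 0 := pow_ne_zero _ (sub_ne_zero.2 hz1)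
  field_simp

end Pool.Agent.P.MP_d5661c_co.Flo
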