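import Mathlib
import Pool.Agent.P.MP_d5661c_co.Flo.LemB

/-! No generalized Hadamard matrix over a cyclic group of odd squarefree composite order. -/

set_option autoImplicit false

namespace Pool.Agent.P.MP_d5661c_co.Flo

open Finset

theorem integral_of_val {K : Type*} [Field K] {x : K} (h : ∀ V : ValuationSubring K, x ∈ V) :
    IsIntegral ℤ x := by
  by_contra hx
  have hx' : x ∉ (integralClosure ℤ K).toSubring := hx
  have : IsIntegrallyClosedIn (integralClosure ℤ K).toSubring K :=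
    inferInstanceAs (IsIntegrallyClosedIn (integralClosure ℤ K) K)
  obtain ⟨V, -, hV⟩ := Subring.exists_le_valuationSubring_of_isIntegrallyClosedIn hx'
  exact hV (h V)

theorem exists_val (K : Type*) [Field K] [CharZero K] {q : ℕ} (hq : q.Prime) :
    ∃ V : ValuationSubring K, V.valuation (q : K) < 1 := by
  by_contra hc
  push Not at hc
  have h1 : IsIntegral ℤ (algebraMap ℚ K (q : ℚ)⁻¹) := integral_of_val fun V => by
    rw [← V.valuation_le_one_iff, map_inv₀, map_natCast, map_inv₀]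
    exact inv_le_one_of_one_le₀ (hc V)
  rw [isIntegral_algebraMap_iff (algebraMap ℚ K).injective,
    IsIntegrallyClosed.isIntegral_iff] at h1
  obtain ⟨y, hy⟩ := h1
  have h2 : (y : ℚ) * q = 1 := by
    rw [show (y : ℚ) = (q : ℚ)⁻¹ from hy]
    exact inv_mul_cancel₀ (Nat.cast_ne_zero.2 hq.ne_zero)
  have h3 : y * q = 1 := by exact_mod_cast h2
  have h4 : (q : ℤ) ∣ 1 := Dvd.intro_left y h3
  exact hq.one_lt.ne' (Nat.dvd_one.1 (by exact_mod_cast h4))

theorem norm_dd {n : ℕ} [NeZero n] {h : Fin n → Fin n → ℕ} (hG : GH n h) {y : ℂ} (hy : y ^ n = 1)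
    (h1 : y ≠ 1) : ‖dd h y‖ = Real.sqrt (n ^ n) := by
  have e := congrArg norm (dd_mul hG hy h1)
  rw [Complex.inv_eq_conj (Complex.norm_eq_one_of_pow_eq_one hy (NeZero.ne n)), ← map_dd,
    norm_mul, Complex.norm_conj, norm_pow, Complex.norm_natCast] at e
  rw [← e, Real.sqrt_mul_self (norm_nonneg _)]

theorem not_both {K : Type*} [Field K] {Γ : Type*} [LinearOrderedCommGroupWithZero Γ]
    {v : Valuation K Γ} (h2 : v 2 = 1) (h : One v (-1 : K)) : False := by
  unfold One at h
  rw [show (-1 : K) - 1 = -2 by ring, Valuation.map_neg, h2] at h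
  exact lt_irrefl _ h

theorem two_pow {K : Type*} [Field K] {Γ : Type*} [LinearOrderedCommGroupWithZero Γ]
    {v : Valuation K Γ} (h2 : v 2 = 1) {u : K} (hu : One v u) (a : ℕ) (h : u ^ 2 ^ a = 1) :
    u = 1 := by
  induction a with
  | zero => simpa using h
  | succ a ih =>
    rw [pow_succ, pow_mul, sq_eq_one_iff] at h
    rcases h with h | h
    · exact ih h
    · exact (not_both h2 (h ▸ hu.pow (2 ^ a))).elim

theorem v_two {K : Type*} [Field K] {Γ : Type*} [LinearOrderedCommGroupWithZero Γ]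
    (v : Valuation K Γ) {q : ℕ} (ho : Odd q) (hq : v (q : K) < 1) : v 2 = 1 := by
  have := v_cop v hq (a := ((2 : ℕ) : ℤ))
    (Nat.isCoprime_iff_coprime.2 (Nat.coprime_two_left.2 ho))
  simpa using this

theorem exists_nonres {p : ℕ} (hp : p.Prime) (ho : Odd p) :
    ∃ t : ℕ, ¬ p ∣ t ∧ (p : ℤ) ∣ (t : ℤ) ^ (p / 2) + 1 := by
  have := Fact.mk hp
  obtain ⟨a, ha⟩ := FiniteField.exists_nonsquare (F := ZMod p) (by
    rw [ZMod.ringChar_zmod_n]
    rintro rfl
    exact absurd ho (by decide))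
  have h0 : a ≠ 0 := fun e => ha (e ▸ IsSquare.zero)
  refine ⟨a.val, fun hd => h0 ?_, ?_⟩
  · rw [← ZMod.natCast_zmod_val a, ZMod.natCast_eq_zero_iff]
    exact hd
  · rw [← ZMod.intCast_zmod_eq_zero_iff_dvd]
    have := (ZMod.pow_div_two_eq_neg_one_or_one p h0).resolve_left fun e =>
      ha ((ZMod.euler_criterion p h0).2 e)
    push_cast
    rw [ZMod.natCast_zmod_val, this, neg_add_cancel]

theorem sqf_field {K : Type} [Field K] [NumberField K] {n : ℕ} [NeZero n]
    {h : Fin n → Fin n → ℕ} (hG : GH n h) (hno : Odd n) (hsq : Squarefree n) {ζ : K}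
    (hζ : IsPrimitiveRoot ζ n) {p q₀ : ℕ} (hp : p ∈ n.primeFactors) (hq₀ : q₀ ∈ n.primeFactors)
    (hne : q₀ ≠ p) : False := by
  classical
  have hn0 : (n : K) ≠ 0 := Nat.cast_ne_zero.2 (NeZero.ne n)
  have hpr : ∀ l ∈ n.primeFactors, l.Prime := fun l hl => Nat.prime_of_mem_primeFactors hl
  have hfac : ∀ l ∈ n.primeFactors, n = l * (n / l) := fun l hl =>
    (Nat.mul_div_cancel' (Nat.dvd_of_mem_primeFactors hl)).symm
  have hcop : ∀ l ∈ n.primeFactors, Nat.Coprime l (n / l) := fun l hl =>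
    Nat.coprime_of_squarefree_mul (hfac l hl ▸ hsq)
  have hodd : ∀ l ∈ n.primeFactors, Odd l := fun l hl => (Nat.odd_mul.1 (hfac l hl ▸ hno)).1
  obtain ⟨t, hpt, ht⟩ := exists_nonres (hpr p hp) (hodd p hp)
  have hp1 : ¬ p ∣ 1 := fun e => (hpr p hp).one_lt.ne' (Nat.dvd_one.1 e)
  let r : ℕ → K := fun l => ζ ^ (n / l)
  have hr : ∀ l ∈ n.primeFactors, IsPrimitiveRoot (r l) l := fun l hl =>
    hζ.pow (Nat.pos_of_ne_zero (NeZero.ne n)) ((hfac l hl).trans (mul_comm _ _))
  have hr' : ∀ l ∈ n.primeFactors, ∀ q ∈ n.primeFactors, q ≠ l → r q ^ (n / l) = 1 := by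
    intro l hl q hq hql
    rw [(hr q hq).pow_eq_one_iff_dvd]
    refine Nat.Coprime.dvd_of_dvd_mul_left ((Nat.coprime_primes (hpr q hq) (hpr l hl)).2 hql) ?_
    rw [← hfac l hl]
    exact Nat.dvd_of_mem_primeFactors hq
  let ξ : Finset ℕ → K := fun T => ∏ q ∈ T, r q
  have hξ : ∀ l ∈ n.primeFactors, ∀ T ⊆ n.primeFactors, l ∉ T → ξ T ^ (n / l) = 1 := by
    intro l hl T hT hlT
    rw [← prod_pow]
    exact prod_eq_one fun q hq => hr' l hl q (hT hq) fun e => hlT (e ▸ hq)
  have hup : ∀ l ∈ n.primeFactors, ∀ x : K, x ^ (n / l) = 1 → x ^ n = 1 := fun l hl x hx => by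
    rw [hfac l hl, mul_comm, pow_mul, hx, one_pow]
  have hza : ∀ a : ℕ, (r p ^ a) ^ p = 1 := fun a => by
    rw [← pow_mul, mul_comm, pow_mul, (hr p hp).pow_eq_one, one_pow]
  set S := n.primeFactors.erase p with hS
  have hSs : ∀ T ⊆ S, T ⊆ n.primeFactors ∧ p ∉ T := fun T hT =>
    ⟨hT.trans (erase_subset _ _), fun e => notMem_erase p _ (hT e)⟩
  let y : ℕ → Finset ℕ → K := fun a T => ξ T * r p ^ a
  have hy : ∀ a, ¬ p ∣ a → ∀ T ⊆ S, y a T ^ n = 1 ∧ y a T ≠ 1 := by
    intro a ha T hT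
    have h1 := hξ p hp T (hSs T hT).1 (hSs T hT).2
    refine ⟨?_, fun e => ha (((hr p hp).pow_eq_one_iff_dvd a).1
      (cop_one (hza a) h1 (hcop p hp) ((mul_comm _ _).trans e)))⟩
    rw [mul_pow, hup p hp _ h1, one_mul, hfac p hp, pow_mul, hza, one_pow]
  have hd0 : ∀ x : K, x ^ n = 1 → x ≠ 1 → dd h x ≠ 0 := fun x hx h1 =>
    left_ne_zero_of_mul (dd_mul hG hx h1 ▸ pow_ne_zero _ hn0)
  let F : Finset ℕ → K := fun T => dd h (y t T) / dd h (y 1 T)
  let w : K := ∏ T ∈ S.powerset, F T ^ ((-1 : ℤ) ^ T.card)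
  have Cq : ∀ (V : ValuationSubring K), ∀ q ∈ S, V.valuation (q : K) < 1 → One V.valuation w := by
    intro V q hq hv
    have hq' : q ∈ n.primeFactors := mem_of_mem_erase hq
    have key : ∀ a, ¬ p ∣ a → ∀ T ⊆ S.erase q,
        One V.valuation (dd h (y a (insert q T)) / dd h (y a T)) := by
      intro a ha T hT
      have hqT : q ∉ T := fun e => notMem_erase q _ (hT e)
      have hT' : T ⊆ S := hT.trans (erase_subset _ _)
      have e : y a (insert q T) = y a T * r q := by
        simp only [y, ξ, prod_insert hqT]; ring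
      rw [e]
      refine lemA _ hG (hpr q hq') (hodd q hq') (hfac q hq') (hcop q hq') hv ?_ (hy a ha T hT').2
        (hr q hq').pow_eq_one
      rw [mul_pow, hξ q hq' T (hSs T hT').1 hqT, one_mul, ← pow_mul, mul_comm, pow_mul,
        hr' q hq' p hp (ne_of_mem_erase hq).symm, one_pow]
    have e : w = ∏ T ∈ (S.erase q).powerset, ((dd h (y t (insert q T)) / dd h (y t T))⁻¹ *
        (dd h (y 1 (insert q T)) / dd h (y 1 T))) ^ ((-1 : ℤ) ^ T.card) := by
      simp only [w]
      conv_lhs => rw [← insert_erase hq]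
      rw [prod_powerset_insert (notMem_erase q S), ← prod_mul_distrib]
      refine prod_congr rfl fun T hT => ?_
      have hqT : q ∉ T := fun e => notMem_erase q _ (mem_powerset.1 hT e)
      rw [card_insert_of_notMem hqT, pow_succ, mul_neg_one, zpow_neg, ← inv_zpow, ← mul_zpow]
      congr 1
      simp only [F, div_eq_mul_inv, mul_inv, inv_inv]
      ring
    rw [e]
    exact One.prod _ _ fun T hT => ((key t hpt T (mem_powerset.1 hT)).inv.mul
      (key 1 hp1 T (mem_powerset.1 hT))).zpow _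
  have Cp : ∀ (V : ValuationSubring K), V.valuation (p : K) < 1 → One V.valuation (-w) := by
    intro V hv
    have e : -w = -(dd h (r p ^ t) / dd h (r p)) *
        ∏ T ∈ S.powerset.erase ∅, F T ^ ((-1 : ℤ) ^ T.card) := by
      simp only [w]
      rw [← mul_prod_erase _ _ (empty_mem_powerset S)]
      simp [F, y, ξ]
    rw [e]
    refine (lemB _ hG hno (hpr p hp) (hfac p hp) (hcop p hp) hv (hr p hp) ht).mul
      (One.prod _ _ fun T hT => One.zpow ?_ _)
    have hT' : T ⊆ S := mem_powerset.1 (mem_of_mem_erase hT)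
    obtain ⟨q, hq⟩ := nonempty_iff_ne_empty.2 (ne_of_mem_erase hT)
    have hq' := (hSs T hT').1 hq
    have h1 := hξ p hp T (hSs T hT').1 (hSs T hT').2
    have h2 : ξ T ≠ 1 := fun e => (hr q hq').ne_one (hpr q hq').one_lt
      (cop_one (hr q hq').pow_eq_one (hξ q hq' (T.erase q)
        ((erase_subset _ _).trans (hSs T hT').1) (notMem_erase q T)) (hcop q hq')
        ((mul_prod_erase T r hq).trans e))
    have key := fun a => lemA V.valuation hG (hpr p hp) (hodd p hp) (hfac p hp) (hcop p hp) hv h1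
      h2 (hza a)
    have := (key t).mul (key 1).inv
    have h3 := hd0 _ (hup p hp _ h1) h2
    convert this using 1
    simp only [F, y]
    field_simp
  have hint : IsIntegral ℤ w := integral_of_val fun V => by
    rw [← V.valuation_le_one_iff]
    by_cases hc : ∃ l ∈ n.primeFactors, V.valuation (l : K) < 1
    · obtain ⟨l, hl, hv⟩ := hc
      by_cases e : l = p
      · have := (Cp V (e ▸ hv)).val
        rw [Valuation.map_neg] at this
        exact this.le
      · exact (Cq V l (mem_erase.2 ⟨e, hl⟩) hv).val.le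
    · push Not at hc
      have hn1 : V.valuation (n : K) = 1 := by
        rw [← Nat.prod_primeFactors_of_squarefree hsq, Nat.cast_prod, map_prod]
        exact prod_eq_one fun l hl => le_antisymm (v_nat _ l) (hc l hl)
      have hle : ∀ x : K, V.valuation x = 1 → V.valuation (dd h x) ≤ 1 := fun x hx =>
        v_det _ _ fun i j => by simp [hx]
      have hd : ∀ x : K, x ^ n = 1 → x ≠ 1 → V.valuation (dd h x) = 1 := by
        intro x hx h1
        have hx1 := v_root V.valuation (NeZero.ne n) hx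
        have e := congrArg V.valuation (dd_mul hG hx h1)
        rw [map_mul, map_pow, hn1, one_pow] at e
        exact le_antisymm (hle x hx1) (not_lt.1 fun hlt => absurd e
          (mul_lt_one_of_nonneg_of_lt_one_left zero_le hlt (hle _ (by simp [hx1]))).ne)
      rw [map_prod]
      refine (prod_eq_one fun T hT => ?_).le
      have h1 := hy t hpt T (mem_powerset.1 hT)
      have h2 := hy 1 hp1 T (mem_powerset.1 hT)
      rw [map_zpow₀, map_div₀, hd _ h1.1 h1.2, hd _ h2.1 h2.2, div_one, one_zpow]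
  obtain ⟨N, hN, hw⟩ := NumberField.Embeddings.pow_eq_one_of_norm_eq_one K ℂ hint fun φ => by
    rw [map_prod, norm_prod]
    refine prod_eq_one fun T hT => ?_
    have hφ : ∀ x : K, x ^ n = 1 ∧ x ≠ 1 → ‖φ (dd h x)‖ = Real.sqrt (n ^ n) := fun x hx => by
      rw [map_dd]
      exact norm_dd hG (by rw [← map_pow, hx.1, map_one]) fun e =>
        hx.2 (φ.injective (e.trans (map_one φ).symm))
    rw [map_zpow₀, norm_zpow, map_div₀, norm_div, hφ _ (hy t hpt T (mem_powerset.1 hT)),
      hφ _ (hy 1 hp1 T (mem_powerset.1 hT)), div_self, one_zpow]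
    have : (0 : ℝ) < n := Nat.cast_pos.2 (Nat.pos_of_ne_zero (NeZero.ne n))
    positivity
  obtain ⟨a, N', hN', rfl⟩ := Nat.exists_eq_two_pow_mul_odd hN.ne'
  obtain ⟨V, hV⟩ := exists_val K (hpr q₀ hq₀)
  obtain ⟨V', hV'⟩ := exists_val K (hpr p hp)
  have h1 : w ^ N' = 1 := two_pow (v_two _ (hodd q₀ hq₀) hV)
    ((Cq V q₀ (mem_erase.2 ⟨hne, hq₀⟩) hV).pow N') a (by rw [← pow_mul, mul_comm, hw])
  have h2 := (Cp V' hV').pow N'
  rw [hN'.neg_pow, h1] at h2
  exact not_both (v_two _ (hodd p hp) hV') h2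

theorem exists_root (k : Type) [Field k] [CharZero k] (n : ℕ) [NeZero n] :
    ∃ ζ : CyclotomicField n k, IsPrimitiveRoot ζ n :=
  ⟨_, IsCyclotomicExtension.zeta_spec n k (CyclotomicField n k)⟩

theorem sqf {n : ℕ} {h : Fin n → Fin n → ℕ} (hG : GH n h) (h2 : 2 ≤ n) (hno : Odd n)
    (hsq : Squarefree n) : n.Prime := by
  by_contra hnp
  have : NeZero n := ⟨by omega⟩
  have hp : n.minFac ∈ n.primeFactors :=
    Nat.mem_primeFactors.2 ⟨Nat.minFac_prime (by omega), Nat.minFac_dvd n, by omega⟩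
  obtain ⟨q, hq, hne⟩ : ∃ q ∈ n.primeFactors, q ≠ n.minFac := by
    by_contra hc
    push Not at hc
    have e : n.primeFactors = {n.minFac} := eq_singleton_iff_unique_mem.2 ⟨hp, hc⟩
    have := Nat.prod_primeFactors_of_squarefree hsq
    rw [e, prod_singleton] at this
    exact hnp (this ▸ Nat.minFac_prime (by omega))
  obtain ⟨ζ, hζ⟩ := exists_root ℚ n
  exact sqf_field hG hno hsq hζ hp hq hne

end Pool.Agent.P.MP_d5661c_co.Flo
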