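import Mathlib
import Pool.Agent.P.MP_d5661c_co.Flo.Sqf
import Pool.Agent.P.MP_d5661c_co.Syl

/-! A generalized Hadamard matrix `GH(s, 1)` over a cyclic group has prime order. -/

set_option autoImplicit false

namespace Pool.Agent.P.MP_d5661c_co.Flo

open Finset

theorem odd_of_GH {n : ℕ} {h : Fin n → Fin n → ℕ} (hG : GH n h) (h3 : 3 ≤ n) : Odd n := by
  have : NeZero n := ⟨by omega⟩
  have key : ∀ i i' : Fin n, i ≠ i' →
      ∑ j, (h i j : ZMod n) - ∑ j, (h i' j : ZMod n) = ∑ x : ZMod n, x := fun i i' e => by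
    rw [← sum_sub_distrib]
    exact (hG i i' e).sum_comp fun x => x
  have h01 := key ⟨0, by omega⟩ ⟨1, by omega⟩ (by simp)
  have h12 := key ⟨1, by omega⟩ ⟨2, by omega⟩ (by simp)
  have h02 := key ⟨0, by omega⟩ ⟨2, by omega⟩ (by simp)
  have h0 : ∑ x : ZMod n, x = 0 := by linear_combination h02 - h01 - h12
  have h1 : ∑ x : ZMod n, x = ((∑ i ∈ range n, i : ℕ) : ZMod n) := by
    rw [Nat.cast_sum]
    symm
    refine sum_bij (fun i _ => (i : ZMod n)) (fun _ _ => mem_univ _) (fun a ha b hb e => ?_)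
      (fun x _ => ⟨x.val, mem_range.2 (ZMod.val_lt x), ZMod.natCast_zmod_val x⟩) fun _ _ => rfl
    have := congrArg ZMod.val e
    rwa [ZMod.val_cast_of_lt (mem_range.1 ha), ZMod.val_cast_of_lt (mem_range.1 hb)] at this
  rw [h1, ZMod.natCast_eq_zero_iff] at h0
  obtain ⟨c, hc⟩ := h0
  have h2 := Finset.sum_range_id_mul_two n
  rw [hc, mul_assoc] at h2
  have := Nat.eq_of_mul_eq_mul_left (by omega) h2
  exact ⟨c, by omega⟩

theorem cyclic_prime (G : Type*) [Group G] [Finite G] [hc : IsCyclic G] (s : ℕ)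
    (hs : Nat.card G = s) (h2 : 2 ≤ s) (H : Fin s → Fin s → G)
    (hH : ∀ i i', i ≠ i' → Function.Bijective fun j => H i j * (H i' j)⁻¹) : s.Prime := by
  subst hs
  have : NeZero (Nat.card G) := ⟨by omega⟩
  let e := (zmodCyclicMulEquiv hc).symm
  have hG : GH (Nat.card G) fun i j => (Multiplicative.toAdd (e (H i j))).val := by
    intro i i' hi
    have := (Multiplicative.toAdd.bijective.comp e.bijective).comp (hH i i' hi)
    convert this using 1
    funext j
    simp [sub_eq_add_neg]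
  rcases h2.eq_or_lt with h | h
  · rw [← h]; exact Nat.prime_two
  have ho := odd_of_GH hG h
  refine sqf hG h2 ho (Nat.squarefree_iff_prime_squarefree.2 fun p hp hd => ?_)
  obtain ⟨b, c, hpc, hn⟩ := Nat.exists_eq_pow_mul_and_not_dvd (NeZero.ne (Nat.card G)) p hp.ne_one
  have hmax : ¬ p ^ (b + 1) ∣ Nat.card G := fun hd' => by
    rw [hn, pow_succ] at hd'
    exact hpc (Nat.dvd_of_mul_dvd_mul_left (pow_pos hp.pos b) hd')
  have hb : 2 ≤ b := by
    by_contra hlt
    exact hmax ((pow_dvd_pow p (by omega : b + 1 ≤ 2)).trans (by rwa [sq]))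
  have hc0 : c ≠ 0 := fun e0 => hpc (e0 ▸ dvd_zero p)
  obtain ⟨g, hg⟩ := IsCyclic.exists_ofOrder_eq_natCard (α := G)
  have hgc : orderOf (g ^ c) = p ^ b := by
    rw [orderOf_pow_of_dvd hc0 (by rw [hg, hn]; exact Dvd.intro_left _ rfl), hg, hn,
      Nat.mul_div_cancel _ (Nat.pos_of_ne_zero hc0)]
  have := Syl.two_mul_dvd' G 1 (Nat.card G) (one_mul _).symm H (fun i i' hi x => by
    obtain ⟨j, hj⟩ := (hH i i' hi).2 x
    exact Nat.card_eq_one_iff_exists.2 ⟨⟨j, hj⟩, fun y =>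
      Subtype.ext ((hH i i' hi).1 (y.2.trans hj.symm))⟩) p b hp hb _ hgc hmax
  exact (Nat.not_even_iff_odd.2 ho) (even_iff_two_dvd.2 ((dvd_mul_right 2 _).trans this))

end Pool.Agent.P.MP_d5661c_co.Flo
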